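import Pool.Agent.H43.G.R_pool_sql_team_seeded_f72693b1.W81.R1.Blk
import Pool.Agent.H43.G.R_pool_sql_team_seeded_f72693b1.W81.R1N.ModelN
import Pool.Agent.H43.G.R_pool_sql_team_seeded_f72693b1.W81.R1N.ConstN

/-!
The prime values of `c - b n - a n²` for almost all constant terms in one short interval.
-/

set_option autoImplicit false

namespace Pool.Agent.W81.R1N

open Finset Polynomial Filter
open Pool.Agent.H442R2.EHI (evt_log_pow evt_log_ge)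
open Pool.Agent.H300R2.BH (rho SS pv lF)
open Pool.Agent.H300R2.EC
open Pool.Agent.W80.EC
open Pool.Agent.W81.R1

open Classical in
/-- the exceptional discriminants in one block -/
lemma bad2_cardN (V E C U : ℕ) (hE : 320 * (4 * V + 1) ≤ E) : ∀ᶠ x : ℕ in atTop,
    ∀ (a : ℕ) (b c0 : ℤ) (A H : ℕ), 1 ≤ a → (a : ℝ) ≤ Real.log x ^ C → x ≤ A → x ≤ H →
      (H : ℝ) ≤ (x : ℝ) ^ (5 / 4 : ℝ) →
      (∀ c ∈ Ioc c0 (c0 + A), |(-b) ^ 2 - 4 * (-(a : ℤ)) * c| ≤ 5 * (H : ℤ) ^ 2) →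
      ((((Ioc c0 (c0 + A)).filter (fun c => ¬ IsSquare ((-b) ^ 2 - 4 * (-(a : ℤ)) * c) ∧
        (-b) ^ 2 - 4 * (-(a : ℤ)) * c ∈ Exc V E H)).card : ℕ) : ℝ) ≤ A / Real.log x ^ (U + 1) := by
  filter_upwards [bad2_card V E C U hE] with x hx a b c0 A H ha haC hxA hxH hH hD
  have h1 := hx a b (-c0 - A - 1) A H ha haC hxA hxH hH (by
    intro c hc
    rw [mem_Ioc] at hc
    have h2 := hD (-c) (by rw [mem_Ioc]; constructor <;> omega)
    have e1 : (-b) ^ 2 - 4 * (-(a : ℤ)) * (-c) = b ^ 2 - 4 * a * c := by ring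
    rwa [e1] at h2)
  refine le_trans ?_ h1
  have h3 : ((Ioc c0 (c0 + A)).filter (fun c => ¬ IsSquare ((-b) ^ 2 - 4 * (-(a : ℤ)) * c) ∧
        (-b) ^ 2 - 4 * (-(a : ℤ)) * c ∈ Exc V E H)).card ≤
      ((Ioc (-c0 - A - 1) (-c0 - A - 1 + A)).filter (fun c => ¬ IsSquare (b ^ 2 - 4 * a * c) ∧
        b ^ 2 - 4 * a * c ∈ Exc V E H)).card := by
    apply card_le_card_of_injOn (fun c => -c)
    · intro c hc
      rw [mem_coe, mem_filter, mem_Ioc] at hc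
      rw [mem_coe, mem_filter, mem_Ioc]
      have e1 : (-b) ^ 2 - 4 * (-(a : ℤ)) * c = b ^ 2 - 4 * a * (-c) := by ring
      rw [e1] at hc
      obtain ⟨⟨h4, h5⟩, h6⟩ := hc
      exact ⟨⟨by change _ < -c; omega, by change -c ≤ _; omega⟩, h6⟩
    · intro c _ c' _ h
      simp only at h
      omega
  exact_mod_cast h3

open Classical in
/-- one block -/
theorem blkn (C U : ℕ) : ∃ B : ℕ, ∀ᶠ x : ℕ in atTop, ∀ (a : ℕ) (b c0 : ℤ) (A : ℕ), 1 ≤ a →
    (a : ℝ) ≤ Real.log x ^ C → (|b| : ℝ) ≤ x / Real.log x ^ B →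
    (|c0| : ℝ) ≤ (x : ℝ) ^ 2 * Real.log x ^ (C + 1) → x * Real.log x ^ B ≤ A →
    (A : ℝ) ≤ (x : ℝ) ^ (5 / 4 : ℝ) →
    ∃ Bad : Finset ℤ, (Bad.card : ℝ) ≤ A / Real.log x ^ U ∧ ∀ c ∈ Ioc c0 (c0 + A), c ∉ Bad →
      Int.gcd (Int.gcd (-(a : ℤ)) (-b) : ℤ) c = 1 → ¬ IsSquare ((-b) ^ 2 - 4 * (-(a : ℤ)) * c) →
      ¬ (Even (-(a : ℤ) + -b) ∧ Even c) → Good (-(a : ℤ)) (-b) c x U := by
  obtain ⟨Bz, B1, hall⟩ := all_yn C (C + 3) (U + 1) (U + 4)
  set E := max (Bz + 1) (320 * (4 * (U + 4) + 1)) + U + 10 with hE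
  have hE1 : Bz + 1 ≤ E := by
    rw [hE]; have := le_max_left (Bz + 1) (320 * (4 * (U + 4) + 1)); omega
  have hE2 : 320 * (4 * (U + 4) + 1) ≤ E := by
    rw [hE]; have := le_max_right (Bz + 1) (320 * (4 * (U + 4) + 1)); omega
  have hE3 : U + 10 ≤ E := by rw [hE]; omega
  clear_value E
  set B := max B1 (U + 5) with hB
  have hBB1 : B1 ≤ B := le_max_left _ _
  have hBU : U + 5 ≤ B := le_max_right _ _
  clear_value B
  obtain ⟨H1, hH1⟩ := eventually_atTop.mp (const_partZ U E hE3)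
  have hbadE := bad2_cardN (U + 4) E C U hE2
  clear hE2 hE3 hE hB
  refine ⟨B, ?_⟩
  filter_upwards [hall (E + 1), pv_close_neg (E + 1) (U + 2), hbadE,
    eventually_ge_atTop H1, evt_log_ge (2 ^ (E + 1)), evt_log_ge (2 * 3 ^ Bz), evt_log_ge 100,
    evt_log_pow (C + 3) (1 / 4) (by norm_num), eventually_ge_atTop 4]
    with x hally hpvc hbad2 hxH1 hLE hLB hL100 hLp hx4 a b c0 A ha haC hb hc0 hA hA54
  set L := Real.log x with hL
  have hL0 : 0 < L := by linarith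
  have hL1 : 1 ≤ L := by linarith
  have hp : ∀ n : ℕ, 0 < L ^ n := fun n => by positivity
  have hp1 : ∀ n : ℕ, 1 ≤ L ^ n := fun n => one_le_pow₀ hL1
  have hxr : (4 : ℝ) ≤ x := by exact_mod_cast hx4
  have hx0 : (0 : ℝ) < x := by linarith
  have hxA : (x : ℝ) ≤ A := le_trans (by nlinarith [hp1 B]) hA
  have hxAn : x ≤ A := by exact_mod_cast hxA
  have hbx : (|b| : ℝ) ≤ x := by
    refine hb.trans ?_
    rw [div_le_iff₀ (hp _)]
    nlinarith [hp1 B]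
  have hAx2 : (A : ℝ) ≤ (x : ℝ) ^ 2 := by
    refine hA54.trans ?_
    rw [← Real.rpow_natCast]
    exact Real.rpow_le_rpow_of_exponent_le (by linarith) (by norm_num)
  -- the constant term
  have hcb : ∀ c ∈ Ioc c0 (c0 + A), (|c| : ℝ) ≤ 2 * (x : ℝ) ^ 2 * L ^ (C + 1) := by
    intro c hc
    rw [mem_Ioc] at hc
    have h1 : |c| ≤ |c0| + A := by
      have := abs_le.1 (le_refl |c0|)
      rw [abs_le]
      constructor <;> linarith
    have h2 : (|c| : ℝ) ≤ |(c0 : ℝ)| + A := by exact_mod_cast h1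
    have h3 : (x : ℝ) ^ 2 * 1 ≤ (x : ℝ) ^ 2 * L ^ (C + 1) := by gcongr; exact hp1 _
    linarith
  -- N
  set N := ⌊(x : ℝ) ^ 2 * L ^ (C + 3)⌋₊ with hN
  have hNle : (N : ℝ) ≤ (x : ℝ) ^ 2 * L ^ (C + 3) := Nat.floor_le (by positivity)
  have hNge : 4 * (x : ℝ) ^ 2 * L ^ (C + 1) ≤ N := by
    have h1 : (x : ℝ) ^ 2 * L ^ (C + 3) < N + 1 := Nat.lt_floor_add_one _
    have h2 : (x : ℝ) ^ 2 * L ^ (C + 3) = (x : ℝ) ^ 2 * L ^ (C + 1) * L ^ 2 := by ring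
    have h3 : 5 ≤ L ^ 2 := by nlinarith
    have h4 : 1 ≤ (x : ℝ) ^ 2 * L ^ (C + 1) := by
      have : 1 ≤ (x : ℝ) ^ 2 := by nlinarith
      have h5 := hp1 (C + 1)
      nlinarith
    have h5 : (x : ℝ) ^ 2 * L ^ (C + 1) * 5 ≤ (x : ℝ) ^ 2 * L ^ (C + 1) * L ^ 2 := by gcongr
    linarith
  have hxN : x ≤ N := by
    have : (x : ℝ) ≤ N := by
      refine le_trans ?_ hNge
      have h5 := hp1 (C + 1)
      calc (x : ℝ) ≤ 4 * x ^ 2 * 1 := by nlinarith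
        _ ≤ 4 * x ^ 2 * L ^ (C + 1) := by gcongr
    exact_mod_cast this
  have hqf : ∀ n ∈ Ioc 0 x, |(qf a b n : ℝ)| ≤ 2 * (x : ℝ) ^ 2 * L ^ C := by
    intro n hn
    rw [mem_Ioc] at hn
    have hnx : (n : ℝ) ≤ x := by exact_mod_cast hn.2
    have hn0 : (0 : ℝ) ≤ n := Nat.cast_nonneg _
    unfold qf
    push_cast
    calc |(a : ℝ) * (n : ℝ) ^ 2 + b * n| ≤ |(a : ℝ) * (n : ℝ) ^ 2| + |(b : ℝ) * n| := abs_add_le _ _
      _ = (a : ℝ) * (n : ℝ) ^ 2 + |(b : ℝ)| * n := by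
          rw [abs_of_nonneg (by positivity), abs_mul, abs_of_nonneg hn0]
      _ ≤ L ^ C * (x : ℝ) ^ 2 + x * x := by gcongr
      _ ≤ L ^ C * (x : ℝ) ^ 2 + L ^ C * (x : ℝ) ^ 2 := by
          have := hp1 C
          have h6 : (0 : ℝ) ≤ (x : ℝ) ^ 2 := by positivity
          nlinarith
      _ = _ := by ring
  have hval : ∀ c ∈ Ioc c0 (c0 + A), ∀ n ∈ Ioc 0 x, |c - qf a b n| ≤ N := by
    intro c hc n hn
    have h1 := hcb c hc
    have h2 := hqf n hn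
    have h3 : |((c - qf a b n : ℤ) : ℝ)| ≤ N := by
      push_cast
      refine (abs_sub _ _).trans (le_trans (add_le_add h1 h2) (le_trans ?_ hNge))
      have h4 : L ^ C ≤ L ^ (C + 1) := pow_le_pow_right₀ hL1 (by omega)
      have h5 : 2 * (x : ℝ) ^ 2 * L ^ C ≤ 2 * (x : ℝ) ^ 2 * L ^ (C + 1) := by gcongr
      linarith
    exact_mod_cast h3
  -- H
  set H := ⌈(x : ℝ) * L ^ (C + 2)⌉₊ with hH
  have hHge : (x : ℝ) * L ^ (C + 2) ≤ H := Nat.le_ceil _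
  have hHle : (H : ℝ) ≤ x * L ^ (C + 3) := by
    have h1 : (H : ℝ) < x * L ^ (C + 2) + 1 := Nat.ceil_lt_add_one (by positivity)
    have h2 : 1 ≤ (x : ℝ) * L ^ (C + 2) := by nlinarith [hp1 (C + 2)]
    calc (H : ℝ) ≤ 2 * (x * L ^ (C + 2)) := by linarith
      _ ≤ L * (x * L ^ (C + 2)) := by gcongr; linarith
      _ = _ := by ring
  have hH54 : (H : ℝ) ≤ (x : ℝ) ^ (5 / 4 : ℝ) := by
    refine hHle.trans ?_
    calc (x : ℝ) * L ^ (C + 3) ≤ x * (x : ℝ) ^ (1 / 4 : ℝ) := by gcongr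
      _ = (x : ℝ) ^ (1 : ℝ) * (x : ℝ) ^ (1 / 4 : ℝ) := by rw [Real.rpow_one]
      _ = (x : ℝ) ^ (5 / 4 : ℝ) := by rw [← Real.rpow_add hx0]; norm_num
  have hxH : x ≤ H := by
    have : (x : ℝ) ≤ H := le_trans (by nlinarith [hp1 (C + 2)]) hHge
    exact_mod_cast this
  have hxHr : (x : ℝ) ≤ H := by exact_mod_cast hxH
  set M := Real.log H with hM
  have hLM : L ≤ M := Real.log_le_log hx0 hxHr
  have hM2 : M ≤ 2 * L := by
    have h1 := Real.log_le_log (by linarith) hH54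
    rw [Real.log_rpow hx0] at h1
    linarith
  have hM0 : 0 < M := by linarith
  have hdisc : ∀ c ∈ Ioc c0 (c0 + A), |(-b) ^ 2 - 4 * (-(a : ℤ)) * c| ≤ 5 * (H : ℤ) ^ 2 := by
    intro c hc
    have h1 := hcb c hc
    have h2 : |(((-b) ^ 2 - 4 * (-(a : ℤ)) * c : ℤ) : ℝ)| ≤ 5 * (H : ℝ) ^ 2 := by
      push_cast
      have h3 : |(-(b : ℝ)) ^ 2 - 4 * (-(a : ℝ)) * c| ≤ |(b : ℝ) ^ 2| + |4 * (a : ℝ) * c| := by
        have e1 : (-(b : ℝ)) ^ 2 - 4 * (-(a : ℝ)) * c = (b : ℝ) ^ 2 + 4 * a * c := by ring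
        rw [e1]
        exact abs_add_le _ _
      have h4 : |(b : ℝ) ^ 2| ≤ (x : ℝ) ^ 2 := by
        rw [abs_pow]
        exact pow_le_pow_left₀ (abs_nonneg _) hbx 2
      have h5 : |4 * (a : ℝ) * c| ≤ 4 * L ^ C * (2 * (x : ℝ) ^ 2 * L ^ (C + 1)) := by
        rw [abs_mul, abs_of_nonneg (by positivity)]
        gcongr
      have h6 : (x * L ^ (C + 2)) ^ 2 ≤ (H : ℝ) ^ 2 := pow_le_pow_left₀ (by positivity) hHge 2
      have h7 : (x * L ^ (C + 2)) ^ 2 = (x : ℝ) ^ 2 * (L ^ (2 * C + 1) * L ^ 3) := by ring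
      have h8 : 4 * L ^ C * (2 * (x : ℝ) ^ 2 * L ^ (C + 1)) = (x : ℝ) ^ 2 * (8 * L ^ (2 * C + 1)) := by ring
      have h9 : (x : ℝ) ^ 2 * 1 ≤ (x : ℝ) ^ 2 * L ^ (2 * C + 1) := by gcongr; exact hp1 _
      have h10 : (x : ℝ) ^ 2 * (9 * L ^ (2 * C + 1)) ≤ (x : ℝ) ^ 2 * (L ^ (2 * C + 1) * L ^ 3) := by
        apply mul_le_mul_of_nonneg_left _ (by positivity)
        rw [mul_comm]
        apply mul_le_mul_of_nonneg_left _ (hp _).le
        calc (9 : ℝ) ≤ L ^ 1 := by rw [pow_one]; linarith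
          _ ≤ L ^ 3 := pow_le_pow_right₀ hL1 (by norm_num)
      have h11 : 0 ≤ (H : ℝ) ^ 2 := by positivity
      nlinarith
    exact_mod_cast h2
  -- z
  set z := ⌊M ^ E⌋₊ with hz
  have hzlo : (3 * L) ^ Bz ≤ z := by
    have h1 : M ^ E < z + 1 := Nat.lt_floor_add_one _
    have h2 : L ^ (Bz + 1) ≤ M ^ E := by
      calc L ^ (Bz + 1) ≤ L ^ E := pow_le_pow_right₀ hL1 hE1
        _ ≤ M ^ E := pow_le_pow_left₀ hL0.le hLM _
    have h3 : 2 * (3 * L) ^ Bz ≤ L ^ (Bz + 1) := by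
      calc 2 * (3 * L) ^ Bz = (2 * 3 ^ Bz) * L ^ Bz := by rw [mul_pow]; ring
        _ ≤ L * L ^ Bz := by gcongr
        _ = _ := by ring
    have h4 : 1 ≤ (3 * L) ^ Bz := one_le_pow₀ (by linarith)
    linarith
  have hzhi : (z : ℝ) ≤ L ^ (E + 1) := by
    calc (z : ℝ) ≤ M ^ E := Nat.floor_le (by positivity)
      _ ≤ (2 * L) ^ E := pow_le_pow_left₀ hM0.le hM2 _
      _ = 2 ^ E * L ^ E := by rw [mul_pow]
      _ ≤ L * L ^ E := by
          gcongr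
          refine le_trans ?_ hLE
          exact pow_le_pow_right₀ (by norm_num) (by omega)
      _ = L ^ (E + 1) := by ring
  have hz1 : 1 ≤ z := by
    have h4 : (1 : ℝ) ≤ (3 * L) ^ Bz := one_le_pow₀ (by linarith)
    exact_mod_cast h4.trans hzlo
  have hbB1 : (|b| : ℝ) ≤ x / L ^ B1 := by
    refine hb.trans ?_
    exact div_le_div_of_nonneg_left hx0.le (hp _) (pow_le_pow_right₀ hL1 hBB1)
  have hAB1 : x * L ^ B1 ≤ A := by
    refine le_trans ?_ hA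
    exact mul_le_mul_of_nonneg_left (pow_le_pow_right₀ hL1 hBB1) hx0.le
  obtain ⟨Bad1, hBad1, hgood⟩ := hally a b A N z (c0 + 1) ha haC hbB1 hAB1 hA54 hxN hNle
    (fun n hn k hk => hval _ (by rw [mem_Ioc]; constructor <;> push_cast <;> omega) n hn) hzlo hzhi
  set Bad2 := (Ioc c0 (c0 + A)).filter (fun c => ¬ IsSquare ((-b) ^ 2 - 4 * (-(a : ℤ)) * c) ∧
    (-b) ^ 2 - 4 * (-(a : ℤ)) * c ∈ Exc (U + 4) E H) with hBad2
  have hb2 := hbad2 a b c0 A H ha haC hxAn hxH hH54 hdisc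
  rw [← hBad2] at hb2
  refine ⟨Bad1.image (fun k : ℕ => c0 + 1 + (k : ℤ)) ∪ Bad2, ?_, ?_⟩
  · have h1 : (((Bad1.image (fun k : ℕ => c0 + 1 + (k : ℤ)) ∪ Bad2).card : ℕ) : ℝ) ≤ Bad1.card + Bad2.card := by
      have h2 := card_union_le (Bad1.image (fun k : ℕ => c0 + 1 + (k : ℤ))) Bad2
      have h3 := card_image_le (s := Bad1) (f := fun k : ℕ => c0 + 1 + (k : ℤ))
      have h4 : (Bad1.image (fun k : ℕ => c0 + 1 + (k : ℤ)) ∪ Bad2).card ≤ Bad1.card + Bad2.card := by omega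
      exact_mod_cast h4
    calc _ ≤ (Bad1.card : ℝ) + Bad2.card := h1
      _ ≤ A / L ^ (U + 1) + A / L ^ (U + 1) := add_le_add hBad1 hb2
      _ = 2 * A / L ^ (U + 1) := by ring
      _ ≤ A / L ^ U := by
          rw [div_le_div_iff₀ (by positivity) (by positivity), pow_succ]
          have : 0 ≤ (A : ℝ) * L ^ U := by positivity
          nlinarith
  · intro c hc hcB hgcd hsq hpar
    rw [mem_union, not_or] at hcB
    obtain ⟨hc1, hc2⟩ := hcB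
    have hcI := mem_Ioc.1 hc
    have hexc : (-b) ^ 2 - 4 * (-(a : ℤ)) * c ∉ Exc (U + 4) E H := by
      intro hcon
      apply hc2
      rw [hBad2, mem_filter]
      exact ⟨hc, hsq, hcon⟩
    have hdm : (-b) ^ 2 - 4 * (-(a : ℤ)) * c ∈ Dset (5 * H ^ 2) := by
      unfold Dset
      rw [mem_filter, mem_Icc]
      have h1 := abs_le.1 (hdisc c hc)
      push_cast
      refine ⟨h1, ?_⟩
      intro h0
      apply hsq
      rw [h0]
      exact ⟨0, rfl⟩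
    have haH : |(-(a : ℤ))| ≤ H := by
      rw [abs_neg, abs_of_nonneg (by positivity)]
      have h1 : (a : ℝ) ≤ H := by
        refine haC.trans (le_trans ?_ hHge)
        have h2 : L ^ C ≤ L ^ (C + 2) := pow_le_pow_right₀ hL1 (by omega)
        nlinarith [hp1 (C + 2)]
      exact_mod_cast h1
    obtain ⟨Cc, hCc, hlim, hlow, hclose⟩ := hH1 H (hxH1.trans hxH) (-(a : ℤ)) (-b) c (by omega) haH
      hgcd hsq hpar hdm hexc
    set k := (c - c0 - 1).toNat with hk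
    have hkc : c0 + 1 + (k : ℤ) = c := by omega
    have hkA : k < A := by omega
    have hkB : k ∉ Bad1 := by
      intro hcon
      apply hc1
      rw [mem_image]
      exact ⟨k, hcon, hkc⟩
    have hSc := hgood k hkA hkB
    rw [hkc] at hSc
    have hpv := hpvc a b c z ha (by
      refine hb.trans ?_
      exact div_le_div_of_nonneg_left hx0.le (hp _) (pow_le_pow_right₀ hL1 hBU)) hz1 hzhi hgcd hSc
    set S := ep (-(a : ℤ)) (-b) * Cc * Gf (-(a : ℤ)) (-b) with hS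
    refine ⟨Cc, hCc, hlim, ?_, fun y hy => ?_⟩
    · refine le_trans ?_ hlow
      apply one_div_le_one_div_of_le (by linarith)
      linarith
    · have hSlow : 1 / (4 * L) ≤ S := by
        refine le_trans ?_ hlow
        apply one_div_le_one_div_of_le (by linarith)
        linarith
      have hS0 : 0 < S := lt_of_lt_of_le (by positivity) hSlow
      obtain ⟨hl0, hl1⟩ := lF_le (q2 (-(a : ℤ)) (-b) c) y
      have hyx : (y : ℝ) ≤ x := by exact_mod_cast hy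
      have e1 : pv (q2 (-(a : ℤ)) (-b) c) y - S * lF (q2 (-(a : ℤ)) (-b) c) y =
          (pv (q2 (-(a : ℤ)) (-b) c) y - SS z (q2 (-(a : ℤ)) (-b) c) * lF (q2 (-(a : ℤ)) (-b) c) y) +
          (SS z (q2 (-(a : ℤ)) (-b) c) - S) * lF (q2 (-(a : ℤ)) (-b) c) y := by ring
      rw [← hS, e1]
      have t1 : (x : ℝ) / L ^ (U + 2) ≤ S * (x / L ^ U) / 2 := by
        have h1 : (1 / (4 * L)) * (x / L ^ U) / 2 ≤ S * (x / L ^ U) / 2 := by gcongr
        refine le_trans ?_ h1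
        have h2 : (1 / (4 * L)) * ((x : ℝ) / L ^ U) / 2 = (x / L ^ U) * (1 / (8 * L)) := by
          field_simp
          norm_num
        have h3 : (x : ℝ) / L ^ (U + 2) = (x / L ^ U) * (1 / L ^ 2) := by
          rw [pow_add]
          field_simp
        rw [h2, h3]
        gcongr
        nlinarith
      have t2 : |(SS z (q2 (-(a : ℤ)) (-b) c) - S) * lF (q2 (-(a : ℤ)) (-b) c) y| ≤ S * (x / L ^ U) / 2 := by
        rw [abs_mul, abs_of_nonneg hl0]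
        calc |SS z (q2 (-(a : ℤ)) (-b) c) - S| * lF (q2 (-(a : ℤ)) (-b) c) y
            ≤ (S / (4 * M ^ U)) * (2 * x) := by
              apply mul_le_mul hclose (hl1.trans (by linarith)) hl0 (by positivity)
          _ ≤ (S / (4 * L ^ U)) * (2 * x) := by gcongr
          _ = S * (x / L ^ U) / 2 := by
              field_simp
              norm_num
      calc _ ≤ |pv (q2 (-(a : ℤ)) (-b) c) y - SS z (q2 (-(a : ℤ)) (-b) c) * lF (q2 (-(a : ℤ)) (-b) c) y| +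
            |(SS z (q2 (-(a : ℤ)) (-b) c) - S) * lF (q2 (-(a : ℤ)) (-b) c) y| := abs_add_le _ _
        _ ≤ S * (x / L ^ U) / 2 + S * (x / L ^ U) / 2 := add_le_add ((hpv y hy).trans t1) t2
        _ = _ := by ring

end Pool.Agent.W81.R1N
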